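import Pool.Agent.Q100.RSeq.Blocks

set_option autoImplicit false

/-!
Every modular group of order `2 ^ n`, `n ≥ 4`, is R-sequenceable.
-/

namespace Pool.Agent.Results.MP_011385_al.Modular

open Pool.Agent.Q100.RSeq

/-- The modular group `⟨a, b | a ^ (2 ^ (n-1)) = b ^ 2 = 1, b a b⁻¹ = a ^ (1 + 2 ^ (n-2))⟩`, as a
presented group; `rels M r` is the set of the three relators `a ^ M`, `b ^ 2`,
`b * a * b⁻¹ * (a ^ r)⁻¹`. -/
abbrev ModGroup (n : ℕ) : Type := PresentedGroup (rels (2 ^ (n - 1)) (1 + 2 ^ (n - 2)))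

/-- The function `Y` for `J = 2 P`. -/
def Y (P i : ℤ) : ℤ :=
  if i = 4 * P then 6 * P
  else if i % 2 = 0 then 6 * P - i / 2
  else if i < 2 * P then 3 * P - (i - 1) / 2
  else -((i - 2 * P - 1) / 2)

theorem Y_mem {P i : ℤ} (h1 : 1 ≤ i) (h2 : i ≤ 4 * P) :
    (2 * P + 1 ≤ Y P i ∧ Y P i ≤ 3 * P) ∨ (1 - P ≤ Y P i ∧ Y P i ≤ 0) ∨
      (4 * P + 1 ≤ Y P i ∧ Y P i ≤ 6 * P) := by
  unfold Y
  split_ifs <;> omega

theorem U_mem {P i : ℤ} (h1 : 1 ≤ i) (h2 : i < 4 * P) :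
    (2 * P + 1 ≤ Y P i + i ∧ Y P i + i ≤ 4 * P) ∨
      (6 * P + 1 ≤ Y P i + i ∧ Y P i + i ≤ 8 * P - 1) := by
  unfold Y
  split_ifs <;> omega

theorem Y_inj {P i j : ℤ} (h1 : 1 ≤ i) (h2 : i ≤ 4 * P) (h3 : 1 ≤ j)
    (h4 : j ≤ 4 * P) (h : Y P i = Y P j) : i = j := by
  unfold Y at h
  split_ifs at h <;> omega

theorem U_inj {P i j : ℤ} (h1 : 1 ≤ i) (h2 : i < 4 * P) (h3 : 1 ≤ j)
    (h4 : j < 4 * P) (h : Y P i + i = Y P j + j) : i = j := by
  unfold Y at h
  split_ifs at h <;> omega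

theorem dvd_cases {M d : ℤ} (hM : 0 < M) (h : M ∣ d) (h1 : -(2 * M) < d) (h2 : d < 2 * M) :
    d = -M ∨ d = 0 ∨ d = M := by
  obtain ⟨t, rfl⟩ := h
  have h3 : -2 < t := by nlinarith
  have h4 : t < 2 := by nlinarith
  have h5 : t = -1 ∨ t = 0 ∨ t = 1 := by omega
  rcases h5 with rfl | rfl | rfl
  · left; ring
  · right; left; ring
  · right; right; ring

theorem Uval {P : ℕ} (i : ℤ) (_h1 : 1 ≤ i) (h2 : i ≤ 4 * P) :
    (i < 4 * P ∧ Blocks.U (2 * P) (Y P) i = Y P i + i) ∨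
      (i = 4 * P ∧ Blocks.U (2 * P) (Y P) i = 2 * P) := by
  by_cases h : i = 4 * P
  · right
    refine ⟨h, ?_⟩
    rw [Blocks.U, if_pos (by push_cast; omega), Y, if_pos h]
    push_cast
    ring
  · left
    refine ⟨by omega, ?_⟩
    rw [Blocks.U, if_neg (by push_cast; omega)]

theorem Vval {P : ℕ} (i : ℤ) (_h1 : 1 ≤ i) (h2 : i ≤ 4 * P) :
    (i < 4 * P ∧ Blocks.V (2 * P) (1 - 2 * P) (Y P) i = Y P i + i + 2 * P) ∨
      (i = 4 * P ∧ Blocks.V (2 * P) (1 - 2 * P) (Y P) i = 8 * P) := by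
  by_cases h : i = 4 * P
  · right
    refine ⟨h, ?_⟩
    rw [Blocks.V, if_pos (by push_cast; omega), Y, if_pos h]
    ring
  · left
    refine ⟨by omega, ?_⟩
    rw [Blocks.V, if_neg (by push_cast; omega)]
    ring

theorem general {G : Type*} [Group G] {a b : G} {P : ℕ} (hP : 1 ≤ P)
    (F : Frame (4 * (2 * P)) (1 + 4 * (P : ℤ)) a b) : RSequenceable G := by
  have hP' : (1 : ℤ) ≤ P := by exact_mod_cast hP
  refine Blocks.main (J := 2 * P) (by omega) F (1 - 2 * P) (by omega) (Y P) ?_ ?_ ?_ ?_ ?_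
  · intro i j h1 h2 h3 h4 h
    push_cast at h2 h4 h
    have m1 := Y_mem (P := (P : ℤ)) h1 (by omega)
    have m2 := Y_mem (P := (P : ℤ)) h3 (by omega)
    rw [show 2 * (2 * (P : ℤ)) = 4 * P by ring] at h
    rcases dvd_cases (M := 4 * (P : ℤ)) (by omega) h (by omega) (by omega) with h | h | h
    · omega
    · exact Y_inj (P := (P : ℤ)) h1 (by omega) h3 (by omega) (by omega)
    · omega
  · intro i j h1 h2 h3 h4 h
    push_cast at h2 h4 h
    have m1 := Y_mem (P := (P : ℤ)) h1 (by omega)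
    have m2 := Y_mem (P := (P : ℤ)) h3 (by omega)
    rw [show 4 * (2 * (P : ℤ)) = 8 * P by ring] at h
    rcases dvd_cases (M := 8 * (P : ℤ)) (by omega) h (by omega) (by omega) with h | h | h <;> omega
  · intro i j h1 h2 h3 h4 h
    push_cast at h2 h4 h
    rw [show 4 * (2 * (P : ℤ)) = 8 * P by ring] at h
    rcases Uval (P := P) i h1 (by omega) with ⟨k1, k2⟩ | ⟨k1, k2⟩ <;>
    rcases Uval (P := P) j h3 (by omega) with ⟨l1, l2⟩ | ⟨l1, l2⟩ <;>
    rw [k2, l2] at h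
    · have m1 := U_mem (P := (P : ℤ)) h1 (by omega)
      have m2 := U_mem (P := (P : ℤ)) h3 (by omega)
      have := Semi.small_dvd h (by omega) (by omega)
      exact U_inj (P := (P : ℤ)) h1 (by omega) h3 (by omega) (by omega)
    · have m1 := U_mem (P := (P : ℤ)) h1 (by omega)
      have := Semi.small_dvd h (by omega) (by omega)
      omega
    · have m2 := U_mem (P := (P : ℤ)) h3 (by omega)
      have := Semi.small_dvd h (by omega) (by omega)
      omega
    · omega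
  · intro i j h1 h2 h3 h4 h
    push_cast at h2 h4 h
    rw [show 4 * (2 * (P : ℤ)) = 8 * P by ring] at h
    rcases Vval (P := P) i h1 (by omega) with ⟨k1, k2⟩ | ⟨k1, k2⟩ <;>
    rcases Vval (P := P) j h3 (by omega) with ⟨l1, l2⟩ | ⟨l1, l2⟩ <;>
    rw [k2, l2] at h
    · have m1 := U_mem (P := (P : ℤ)) h1 (by omega)
      have m2 := U_mem (P := (P : ℤ)) h3 (by omega)
      have := Semi.small_dvd h (by omega) (by omega)
      exact U_inj (P := (P : ℤ)) h1 (by omega) h3 (by omega) (by omega)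
    · have m1 := U_mem (P := (P : ℤ)) h1 (by omega)
      have := Semi.small_dvd h (by omega) (by omega)
      omega
    · have m2 := U_mem (P := (P : ℤ)) h3 (by omega)
      have := Semi.small_dvd h (by omega) (by omega)
      omega
    · omega
  · intro i j h1 h2 h3 h4 h
    push_cast at h2 h4 h
    rw [show 4 * (2 * (P : ℤ)) = 8 * P by ring] at h
    have e1 : (2 * P + 1 ≤ Blocks.U (2 * P) (Y P) i ∧ Blocks.U (2 * P) (Y P) i ≤ 4 * P) ∨
        (6 * P + 1 ≤ Blocks.U (2 * P) (Y P) i ∧ Blocks.U (2 * P) (Y P) i ≤ 8 * P - 1) ∨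
        Blocks.U (2 * P) (Y P) i = 2 * P := by
      rcases Uval (P := P) i h1 (by omega) with ⟨k1, k2⟩ | ⟨k1, k2⟩
      · have m1 := U_mem (P := (P : ℤ)) h1 (by omega)
        omega
      · omega
    have e2 : (4 * P + 1 ≤ Blocks.V (2 * P) (1 - 2 * P) (Y P) j ∧
          Blocks.V (2 * P) (1 - 2 * P) (Y P) j ≤ 6 * P) ∨
        (8 * P ≤ Blocks.V (2 * P) (1 - 2 * P) (Y P) j ∧
          Blocks.V (2 * P) (1 - 2 * P) (Y P) j ≤ 10 * P - 1) := by
      rcases Vval (P := P) j h3 (by omega) with ⟨k1, k2⟩ | ⟨k1, k2⟩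
      · have m1 := U_mem (P := (P : ℤ)) h3 (by omega)
        omega
      · omega
    generalize Blocks.U (2 * P) (Y P) i = u at *
    generalize Blocks.V (2 * P) (1 - 2 * P) (Y P) j = v at *
    rcases Int.even_or_odd' v with ⟨w, rfl | rfl⟩
    · have h5 : 8 * (P : ℤ) ∣ u - 2 * w := by
        have h6 : 8 * (P : ℤ) ∣ 8 * P * w := ⟨w, rfl⟩
        have := dvd_add h h6
        have e : u - (1 + 4 * (P : ℤ)) * (2 * w) + 8 * P * w = u - 2 * w := by ring
        rwa [e] at this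
      rcases dvd_cases (M := 8 * (P : ℤ)) (by omega) h5 (by omega) (by omega) with h | h | h <;> omega
    · have h5 : 8 * (P : ℤ) ∣ u - (2 * w + 1) - 4 * P := by
        have h6 : 8 * (P : ℤ) ∣ 8 * P * w := ⟨w, rfl⟩
        have := dvd_add h h6
        have e : u - (1 + 4 * (P : ℤ)) * (2 * w + 1) + 8 * P * w = u - (2 * w + 1) - 4 * P := by ring
        rwa [e] at this
      rcases dvd_cases (M := 8 * (P : ℤ)) (by omega) h5 (by omega) (by omega) with h | h | h <;> omega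

/-- **Every modular `2`-group is R-sequenceable.** For every `n ≥ 4` the group `ModGroup n` has
order `2 ^ n` and is R-sequenceable. -/
theorem result : ∀ n : ℕ, 4 ≤ n →
    Nat.card (ModGroup n) = 2 ^ n ∧ RSequenceable (ModGroup n) := by
  intro n hn
  obtain ⟨k, rfl⟩ := Nat.exists_eq_add_of_le hn
  have e1 : 2 ^ (4 + k - 1) = 4 * (2 * 2 ^ k) := by
    rw [show 4 + k - 1 = 3 + k by omega, pow_add]; ring
  have e2 : 2 ^ (4 + k - 2) = 4 * 2 ^ k := by
    rw [show 4 + k - 2 = 2 + k by omega, pow_add]; ring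
  have e3 : 2 ^ (4 + k) = 2 * (4 * (2 * 2 ^ k)) := by
    rw [pow_add]; ring
  have hP : 1 ≤ 2 ^ k := Nat.one_le_two_pow
  unfold ModGroup
  rw [e1, e2, e3]
  generalize 2 ^ k = P at hP
  have F := presented_frame (4 * (2 * P)) (1 + 4 * P) (by omega) (by
      refine ⟨2 * (P : ℤ) + 1, ?_⟩
      push_cast
      ring) (by
      intro h
      have := Semi.small_dvd h (by push_cast; omega) (by push_cast; omega)
      push_cast at this
      omega)
  refine ⟨F.card, ?_⟩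
  push_cast at F
  exact general hP F

end Pool.Agent.Results.MP_011385_al.Modular
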